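import Pool.Agent.Lib.MP_034e58_gt.Main

/-!
A connected separable surface with a connected open subset that is not homeomorphic to any dense
open subset.
-/

set_option autoImplicit false

namespace Pool.Agent.Lib.MP_034e58_gt.Variants.ConnectedSurface

open Pool.Agent.Lib.MP_034e58_gt Set Topology Filter

theorem exists_nhd {X : Type} [TopologicalSpace X] (x : X)
    (e : OpenPartialHomeomorph X (EuclideanSpace ℝ (Fin 2))) (hx : x ∈ e.source) :
    ∃ W : Set X, IsOpen W ∧ x ∈ W ∧ Nonempty (W ≃ₜ EuclideanSpace ℝ (Fin 2)) := by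
  obtain ⟨r, hr, hb⟩ := Metric.isOpen_iff.1 e.open_target (e x) (e.map_source hx)
  let b : OpenPartialHomeomorph (EuclideanSpace ℝ (Fin 2)) (EuclideanSpace ℝ (Fin 2)) :=
    OpenPartialHomeomorph.univBall (e x) r
  have h1 : b.source = univ := OpenPartialHomeomorph.univBall_source _ _
  have h2 : b.target = Metric.ball (e x) r := OpenPartialHomeomorph.univBall_target _ hr
  have h3 : (b.trans e.symm).source = univ := by
    rw [OpenPartialHomeomorph.trans_source, h1, univ_inter, OpenPartialHomeomorph.symm_source]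
    exact eq_univ_of_forall fun q => hb (h2 ▸ b.map_source (h1 ▸ mem_univ q))
  have h4 := (b.trans e.symm).isOpenEmbedding h3
  refine ⟨range (b.trans e.symm), h4.isOpen_range, ⟨0, ?_⟩, ⟨h4.isEmbedding.toHomeomorph.symm⟩⟩
  have h5 : b 0 = e x := OpenPartialHomeomorph.univBall_apply_zero _ _
  rw [OpenPartialHomeomorph.coe_trans, Function.comp_apply, h5, e.left_inv hx]

/-- There is a Hausdorff, connected, separable space in which every point has an open
neighbourhood homeomorphic to the plane, together with a non-empty connected open subset `U`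
such that no dense open subset is homeomorphic to `U`. -/
theorem result :
    ∃ (M : Type) (_ : TopologicalSpace M), T2Space M ∧ ConnectedSpace M ∧
      TopologicalSpace.SeparableSpace M ∧
      (∀ x : M, ∃ W : Set M, IsOpen W ∧ x ∈ W ∧ Nonempty (W ≃ₜ EuclideanSpace ℝ (Fin 2))) ∧
      ∃ U : Set M, IsOpen U ∧ IsConnected U ∧
        ∀ V : Set M, IsOpen V → Dense V → IsEmpty (U ≃ₜ V) := by
  obtain ⟨S, hG, hsm⟩ := exists_scale
  have hS : ∀ g ∈ S, Continuous g := fun g hg => (hG.1 g hg).1
  obtain ⟨g, hg, -⟩ := hG.2.2 (fun n => n) (fun n => n) tendsto_natCast_atTop_atTop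
  refine ⟨M S, inferInstance, t2_M hS hG.2.1, connected_M ⟨g, hg⟩, separable_M, fun x => ?_,
    UU S, isOpen_UU hS, ⟨⟨_, lim_mem_UU ⟨g, hg⟩ 0⟩, ?_⟩,
    fun V hV hd => ⟨fun f => no_dense_copy hG hsm V hV hd f⟩⟩
  · obtain ⟨e, he⟩ := exists_chart hS x
    exact exists_nhd x e he
  · let p0 : P := ⟨(1, 1), one_ne_zero, Or.inl one_pos⟩
    exact isPreconnected_iUnion
      ⟨iot p0, mem_iInter.2 fun a => iot_mem_range_phi a one_pos⟩
      fun a => isPreconnected_range (continuous_phi a)

end Pool.Agent.Lib.MP_034e58_gt.Variants.ConnectedSurface
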