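import Pool.Agent.Lib.MP_034e58_gt.Th.Main

/-! The earlier hand-in, in every dimension at least two, read off the threshold theorem. -/

namespace Pool.Agent.Lib.MP_034e58_gt.Variants.EveryDim

open Pool.Agent.Lib.MP_034e58_gt.Th Filter

theorem not_dominated : ¬ Dominated (ℕ → ℕ) := fun h => by
  obtain ⟨g, hg⟩ := h id
  obtain ⟨k, hk⟩ := (hg fun k => g k + 1).exists
  exact absurd hk (by simp)

theorem counter (n : ℕ) (hn : 2 ≤ n) :
    ∃ (M : Type) (_ : TopologicalSpace M), T2Space M ∧ ConnectedSpace M ∧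
      TopologicalSpace.SeparableSpace M ∧
      (∀ x : M, ∃ W : Set M, IsOpen W ∧ x ∈ W ∧ Nonempty (W ≃ₜ EuclideanSpace ℝ (Fin n))) ∧
      ∃ U : Set M, IsOpen U ∧ IsConnected U ∧
        ∀ V : Set M, IsOpen V → Dense V → IsEmpty (U ≃ₜ V) := by
  have h := ((main n (ℕ → ℕ)).out 0 2).not.1 (not_or.2 ⟨by omega, not_dominated⟩)
  push Not at h
  obtain ⟨M, _, hM, c, h1, h2, h3⟩ := h
  refine ⟨M, inferInstance, hM.1, hM.2.1, hM.2.2.1, fun x => ?_, _,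
    isOpen_iUnion fun i => (h1 i).1, h2, fun V hV hd => ⟨fun f => h3 ⟨V, hV, hd, ⟨f⟩⟩⟩⟩
  obtain ⟨W, hW, hx⟩ := hM.2.2.2 x
  exact ⟨W, hW.1, hx, hW.2⟩

end Pool.Agent.Lib.MP_034e58_gt.Variants.EveryDim
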